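import Mathlib
import Pool.Agent.Y706.SB.Stm

/-!
# Project SB: points with finite orbit are not large
-/

namespace Pool.Agent.Y153.SB

open Polynomial Pool.Agent.Y706.SB

universe w

section
variable {K : Type*} [Field K] {p : ℕ} {o : K → ℤ}

lemma vl_one (h : Vl p o) : o 1 = 0 := by
  have := h.mul 1 1 one_ne_zero one_ne_zero
  rw [one_mul] at this
  omega

lemma vl_neg_one (h : Vl p o) : o (-1) = 0 := by
  have := h.mul (-1) (-1) (neg_ne_zero.mpr one_ne_zero) (neg_ne_zero.mpr one_ne_zero)
  rw [neg_mul_neg, one_mul, vl_one h] at this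
  omega

lemma vl_neg (h : Vl p o) (x : K) (hx : x ≠ 0) : o (-x) = o x := by
  have := h.mul (-1) x (neg_ne_zero.mpr one_ne_zero) hx
  rw [neg_one_mul, vl_neg_one h] at this
  omega

lemma vl_pow (h : Vl p o) (x : K) (hx : x ≠ 0) (n : ℕ) : o (x ^ n) = n * o x := by
  induction n with
  | zero => simp [vl_one h]
  | succ n ih =>
    rw [pow_succ, h.mul _ _ (pow_ne_zero _ hx) hx, ih]
    push_cast
    ring

lemma vl_sum (h : Vl p o) {ι : Type*} (S : Finset ι) (c : ι → K) (w : ℤ)
    (hc : ∀ i ∈ S, c i ≠ 0 → w ≤ o (c i)) (hs : ∑ i ∈ S, c i ≠ 0) : w ≤ o (∑ i ∈ S, c i) := by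
  classical
  induction S using Finset.induction_on with
  | empty => simp at hs
  | insert a S ha ih =>
    rw [Finset.sum_insert ha] at hs ⊢
    by_cases h1 : c a = 0
    · rw [h1, zero_add] at hs ⊢
      exact ih (fun i hi => hc i (Finset.mem_insert_of_mem hi)) hs
    · by_cases h2 : ∑ i ∈ S, c i = 0
      · rw [h2, add_zero]
        exact hc a (Finset.mem_insert_self _ _) h1
      · exact h.add _ _ w h1 h2 hs (hc a (Finset.mem_insert_self _ _) h1)
          (ih (fun i hi => hc i (Finset.mem_insert_of_mem hi)) h2)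

lemma esc_step (h : Vl p o) (f : K[X]) (d : ℕ) (hd : f.natDegree = d) (hd2 : 2 ≤ d) (V t : ℝ)
    (ht : 0 ≤ t) (hV : ((d : ℝ) - 1) * V = -(o f.leadingCoeff : ℝ))
    (hb : ∀ i < d, (f - X).coeff i ≠ 0 →
      (o f.leadingCoeff : ℝ) - o ((f - X).coeff i) ≤ ((d : ℝ) - i) * (t - V))
    (z : K) (hz : z ≠ 0) (hzt : (o z : ℝ) < V - t) :
    f.eval z ≠ 0 ∧ o (f.eval z) < o z := by
  have hf : f ≠ 0 := by
    rintro rfl
    simp at hd
    omega
  have hA : f.leadingCoeff ≠ 0 := leadingCoeff_ne_zero.mpr hf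
  set w : ℤ := o f.leadingCoeff + d * o z with hw
  have hd1 : (1 : ℝ) ≤ (d : ℝ) - 1 := by
    have : (2 : ℝ) ≤ d := by exact_mod_cast hd2
    linarith
  have hwz : w < o z := by
    have : ((w : ℤ) : ℝ) < o z := by
      rw [hw]
      push_cast
      nlinarith
    exact_mod_cast this
  set r : K := ∑ i ∈ Finset.range d, (f - X).coeff i * z ^ i + z with hr
  have hfe : f.eval z = f.leadingCoeff * z ^ d + r := by
    have hdeg : (f - X).natDegree = d := by
      rw [natDegree_sub_eq_left_of_natDegree_lt, hd]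
      rw [natDegree_X, hd]
      omega
    have h1 : f.eval z = (f - X).eval z + z := by simp
    have h2 : (f - X).coeff d = f.leadingCoeff := by
      rw [coeff_sub, coeff_X_of_ne_one (by omega), sub_zero, leadingCoeff, hd]
    rw [h1, eval_eq_sum_range, hdeg, Finset.sum_range_succ, h2, hr]
    ring
  have hr1 : r ≠ 0 → w + 1 ≤ o r := by
    intro hr0
    have hterm : ∀ i ∈ Finset.range d, (f - X).coeff i * z ^ i ≠ 0 →
        w + 1 ≤ o ((f - X).coeff i * z ^ i) := by
      intro i hi hne
      have hid : i < d := Finset.mem_range.mp hi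
      have hb0 : (f - X).coeff i ≠ 0 := left_ne_zero_of_mul hne
      have hbi := hb i hid hb0
      rw [h.mul _ _ hb0 (pow_ne_zero _ hz), vl_pow h z hz]
      have hidR : (1 : ℝ) ≤ (d : ℝ) - i := by
        have : (i : ℝ) + 1 ≤ d := by exact_mod_cast hid
        linarith
      have : ((w : ℤ) : ℝ) < ((o ((f - X).coeff i) + i * o z : ℤ) : ℝ) := by
        rw [hw]
        push_cast
        nlinarith
      have h3 : w < o ((f - X).coeff i) + i * o z := by exact_mod_cast this
      omega
    by_cases hS : ∑ i ∈ Finset.range d, (f - X).coeff i * z ^ i = 0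
    · rw [hr, hS, zero_add]
      omega
    · have hS1 := vl_sum h _ _ _ hterm hS
      exact h.add _ _ (w + 1) hS hz hr0 hS1 (by omega)
  have hAz : f.leadingCoeff * z ^ d ≠ 0 := mul_ne_zero hA (pow_ne_zero _ hz)
  have hoAz : o (f.leadingCoeff * z ^ d) = w := by
    rw [h.mul _ _ hA (pow_ne_zero _ hz), vl_pow h z hz]
  have hne : f.eval z ≠ 0 := by
    intro h0
    rw [hfe] at h0
    have h1 : r = -(f.leadingCoeff * z ^ d) := by linear_combination h0
    have hrne : r ≠ 0 := by
      rw [h1]
      exact neg_ne_zero.mpr hAz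
    have h2 := hr1 hrne
    rw [h1, vl_neg h _ hAz, hoAz] at h2
    omega
  refine ⟨hne, ?_⟩
  by_contra hge
  push Not at hge
  by_cases hr0 : r = 0
  · rw [hfe, hr0, add_zero, hoAz] at hge
    omega
  · have e : f.eval z + -r = f.leadingCoeff * z ^ d := by
      rw [hfe]
      ring
    have h1 := h.add (f.eval z) (-r) (w + 1) hne (neg_ne_zero.mpr hr0)
      (by rw [e]; exact hAz) (by omega) (by rw [vl_neg h _ hr0]; exact hr1 hr0)
    rw [e, hoAz] at h1
    omega

end

theorem t_ESC : S_ESC.{w} := by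
  intro p K _ o h f d hd hd2 V t ht hV hb y m n hmn hper hy
  by_contra hlt
  push Not at hlt
  have key := esc_step h f d hd hd2 V t ht hV hb
  have hstep : ∀ k, (fun z => f.eval z)^[k] y ≠ 0 ∧
      (o ((fun z => f.eval z)^[k] y) : ℝ) < V - t ∧
      o ((fun z => f.eval z)^[k + 1] y) < o ((fun z => f.eval z)^[k] y) := by
    intro k
    induction k with
    | zero => exact ⟨hy, hlt, (key y hy hlt).2⟩
    | succ k ih =>
      obtain ⟨h1, h2, h3⟩ := ih
      have hk := key _ h1 h2
      have e : (fun z => f.eval z)^[k + 1] y = f.eval ((fun z => f.eval z)^[k] y) :=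
        Function.iterate_succ_apply' _ _ _
      have h4 : (fun z => f.eval z)^[k + 1] y ≠ 0 := by
        rw [e]
        exact hk.1
      have h5 : (o ((fun z => f.eval z)^[k + 1] y) : ℝ) < V - t :=
        lt_trans (by exact_mod_cast h3) h2
      have hk' := key _ h4 h5
      refine ⟨h4, h5, ?_⟩
      rw [Function.iterate_succ_apply' _ (k + 1)]
      exact hk'.2
  have hanti : StrictAnti (fun k => o ((fun z => f.eval z)^[k] y)) :=
    strictAnti_nat_of_succ_lt fun k => (hstep k).2.2
  have h6 := hanti hmn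
  simp only [hper] at h6
  exact lt_irrefl _ h6

end Pool.Agent.Y153.SB
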