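import Mathlib
import Pool.Agent.Y706.SB.Stm

/-!
# Project SB: existence of the chart
-/

namespace Pool.Agent.Y153.SB

set_option linter.style.haveILetI false

open IsDedekindDomain HeightOneSpectrum WithZero Polynomial Pool.Agent.TH951.W.UB Pool.Agent.Y706.SB

universe u w

section Norm

variable {R F S K : Type*} [CommRing R] [IsDomain R] [IsPrincipalIdealRing R] [Field F]
  [Algebra R F] [IsFractionRing R F] [CommRing S] [IsDedekindDomain S] [Field K] [Algebra S K]
  [IsFractionRing S K] [Algebra R S] [Module.Finite R S] [Module.IsTorsionFree R S] [Algebra F K]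
  [Algebra R K] [IsScalarTower R F K] [IsScalarTower R S K] [FiniteDimensional F K]

open Submodule.IsPrincipal in
/-- A generator of the norm of a prime. -/
noncomputable def genP (R : Type*) {S : Type*} [CommRing R] [IsDomain R]
    [IsPrincipalIdealRing R] [CommRing S] [IsDedekindDomain S]
    [Algebra R S] [Module.Finite R S] [Module.IsTorsionFree R S] (P : HeightOneSpectrum S) : R :=
  generator (Ideal.relNorm R P.asIdeal)

lemma genP_ne_zero (P : HeightOneSpectrum S) : genP R P ≠ 0 := by
  unfold genP
  rw [Ne, ← Submodule.IsPrincipal.eq_bot_iff_generator_eq_zero, Ideal.relNorm_eq_bot_iff]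
  exact P.ne_bot

lemma genP_not_unit (P : HeightOneSpectrum S) : ¬ IsUnit (genP R P) := by
  intro hu
  unfold genP at hu
  have h1 : Ideal.relNorm R P.asIdeal = ⊤ := by
    rw [← Ideal.span_singleton_generator (Ideal.relNorm R P.asIdeal)]
    exact Ideal.span_singleton_eq_top.mpr hu
  have h2 := Ideal.relNorm_le_comap R P.asIdeal
  rw [h1, top_le_iff, Ideal.comap_eq_top_iff] at h2
  exact P.isPrime.ne_top h2

/-- Factorisation of the norm of an integral element. -/
lemma norm_fact_alg (s : S) (hs : s ≠ 0) (T : Finset (HeightOneSpectrum S))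
    (hT : ∀ P, P ∉ T → ordP P (algebraMap S K s) = 0) :
    ∃ ε : R, IsUnit ε ∧ Algebra.norm F (algebraMap S K s) = algebraMap R F ε *
      ∏ P ∈ T, (algebraMap R F (genP R P)) ^ (ordP P (algebraMap S K s)) := by
  classical
  have hspan : (Ideal.span {s} : Ideal S) ≠ 0 := by
    rw [Ideal.zero_eq_bot]
    simpa using hs
  set n : HeightOneSpectrum S → ℕ := fun P =>
    (Associates.mk P.asIdeal).count (Associates.mk (Ideal.span {s})).factors with hn
  have h3 : (Ideal.span {s} : Ideal S) = ∏ P ∈ T, P.asIdeal ^ (n P) := by
    conv_lhs => rw [← Ideal.finprod_heightOneSpectrum_factorization hspan]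
    apply finprod_eq_prod_of_mulSupport_subset
    intro P hP
    rw [Function.mem_mulSupport] at hP
    by_contra hPT
    apply hP
    have h4 := hT P hPT
    rw [ordP_eq_count P hs] at h4
    unfold maxPowDividing
    have h5 : (Associates.mk P.asIdeal).count (Associates.mk (Ideal.span {s})).factors = 0 := by
      exact_mod_cast h4
    rw [h5, pow_zero]
  have h4 : Ideal.span {Algebra.intNorm R S s} = Ideal.span {∏ P ∈ T, (genP R P) ^ (n P)} := by
    rw [← Ideal.relNorm_singleton, h3, map_prod, ← Ideal.prod_span_singleton]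
    refine Finset.prod_congr rfl fun P _ => ?_
    rw [map_pow, ← Ideal.span_singleton_pow]
    congr 1
    exact (Ideal.span_singleton_generator _).symm
  rw [Ideal.span_singleton_eq_span_singleton] at h4
  obtain ⟨u, hu⟩ := h4.symm
  refine ⟨u, u.isUnit, ?_⟩
  rw [← Algebra.algebraMap_intNorm (A := R) (K := F) (L := K) (B := S) s, ← hu, map_mul, map_prod,
    mul_comm]
  congr 1
  refine Finset.prod_congr rfl fun P _ => ?_
  rw [ordP_eq_count P hs, zpow_natCast, map_pow]

/-- Factorisation of the norm. -/
lemma norm_fact (x : K) (hx : x ≠ 0) (T : Finset (HeightOneSpectrum S))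
    (hT : ∀ P, P ∉ T → ordP P x = 0) :
    ∃ ε : R, IsUnit ε ∧ Algebra.norm F x = algebraMap R F ε *
      ∏ P ∈ T, (algebraMap R F (genP R P)) ^ (ordP P x) := by
  classical
  obtain ⟨a, b, ha, hb, rfl⟩ := exists_frac (S := S) x hx
  have ha' : algebraMap S K a ≠ 0 := by simpa using ha
  have hb' : algebraMap S K b ≠ 0 := by simpa using hb
  set T' := T ∪ ((finite_ordP_alg (K := K) a ha).toFinset ∪
    (finite_ordP_alg (K := K) b hb).toFinset) with hT'
  obtain ⟨ε1, hε1, h1⟩ := norm_fact_alg (R := R) (F := F) (K := K) a ha T' (by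
    intro P hP
    by_contra h
    exact hP (by simp [hT', h]))
  obtain ⟨ε2, hε2, h2⟩ := norm_fact_alg (R := R) (F := F) (K := K) b hb T' (by
    intro P hP
    by_contra h
    exact hP (by simp [hT', h]))
  obtain ⟨ε2', hε2'⟩ := hε2.exists_right_inv
  have hg : ∀ P : HeightOneSpectrum S, algebraMap R F (genP R P) ≠ 0 := by
    intro P
    rw [Ne, map_eq_zero_iff _ (FaithfulSMul.algebraMap_injective R F)]
    exact genP_ne_zero P
  refine ⟨ε1 * ε2', hε1.mul (IsUnit.of_mul_eq_one _ (by rw [mul_comm]; exact hε2')), ?_⟩
  have h5 : ∏ P ∈ T, (algebraMap R F (genP R P)) ^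
      (ordP P (algebraMap S K a / algebraMap S K b)) =
      ∏ P ∈ T', (algebraMap R F (genP R P)) ^
        (ordP P (algebraMap S K a / algebraMap S K b)) := by
    apply Finset.prod_subset Finset.subset_union_left
    intro P _ hP
    rw [hT P hP, zpow_zero]
  have h6 : algebraMap R F ε2 ≠ 0 := by
    rw [Ne, map_eq_zero_iff _ (FaithfulSMul.algebraMap_injective R F)]
    exact hε2.ne_zero
  have h7 : algebraMap R F ε2' = (algebraMap R F ε2)⁻¹ := by
    apply eq_inv_of_mul_eq_one_left
    rw [← map_mul, mul_comm, hε2', map_one]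
  have h8 : ∏ P ∈ T', (algebraMap R F (genP R P)) ^
        (ordP P (algebraMap S K a / algebraMap S K b)) =
      (∏ P ∈ T', (algebraMap R F (genP R P)) ^ (ordP P (algebraMap S K a))) /
      (∏ P ∈ T', (algebraMap R F (genP R P)) ^ (ordP P (algebraMap S K b))) := by
    rw [← Finset.prod_div_distrib]
    refine Finset.prod_congr rfl fun P _ => ?_
    rw [ordP_div P ha' hb', zpow_sub₀ (hg P)]
  have hnb : Algebra.norm F (algebraMap S K b) ≠ 0 := Algebra.norm_ne_zero_iff.mpr hb'
  have h9 : Algebra.norm F (algebraMap S K a / algebraMap S K b) =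
      Algebra.norm F (algebraMap S K a) / Algebra.norm F (algebraMap S K b) := by
    rw [eq_div_iff hnb, ← map_mul, div_mul_cancel₀ _ hb']
  rw [h2] at hnb
  rw [h5, h8, h9, h1, h2, map_mul, h7]
  have h10 := right_ne_zero_of_mul hnb
  field_simp

end Norm

theorem t_CH : S_CH.{u, w} := by
  intro R F K _ _ _ _ _ _ _ _ _ _ D
  letI : Algebra R K := ((algebraMap F K).comp (algebraMap R F)).toAlgebra
  haveI : IsScalarTower R F K := IsScalarTower.of_algebraMap_eq' rfl
  let S := integralClosure R K
  haveI : IsFractionRing S K := IsIntegralClosure.isFractionRing_of_finite_extension R F K S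
  haveI : IsDedekindDomain S := IsIntegralClosure.isDedekindDomain R F K S
  haveI : Module.Finite R S := IsIntegralClosure.finite R F K S
  have hinjRK : Function.Injective (algebraMap R K) :=
    (algebraMap F K).injective.comp (IsFractionRing.injective R F)
  have hinjRS : Function.Injective (algebraMap R S) := by
    intro a b hab
    apply hinjRK
    rw [IsScalarTower.algebraMap_apply R S K, IsScalarTower.algebraMap_apply R S K, hab]
  haveI : FaithfulSMul R S := (faithfulSMul_iff_algebraMap_injective R S).mpr hinjRS
  haveI : Module.IsTorsionFree R S := inferInstance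
  exact ⟨{
    Pl := HeightOneSpectrum S
    ord := fun P x => ordP P x
    g := fun P => genP R P
    g_ne := fun P => genP_ne_zero P
    g_nu := fun P => genP_not_unit P
    ord_mul := fun P x y hx hy => ordP_mul P hx hy
    ord_add := fun P x y m hx hy hxy h1 h2 => ordP_add P m hx hy hxy h1 h2
    ord_R := by
      intro P r hr
      have h1 := ordP_alg_nonneg (K := K) P (s := algebraMap R S r) (by
        rwa [Ne, map_eq_zero_iff _ hinjRS])
      rw [← IsScalarTower.algebraMap_apply R S K] at h1
      exact h1
    fin := fun x hx => finite_ordP x hx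
    norm := fun x hx T hT => norm_fact x hx T hT
    integral := by
      intro x hx h n
      obtain ⟨s, hs⟩ := exists_of_ordP_nonneg (S := S) x hx h
      have h1 : IsIntegral R x := by
        rw [← hs]
        exact s.2
      have h2 := minpoly.isIntegrallyClosed_eq_field_fractions' F h1
      refine ⟨(minpoly R x).coeff n, ?_⟩
      rw [h2, Polynomial.coeff_map]
    deriv := by
      intro δ hδ0 hδ P x hx hD
      have hδS0 : algebraMap R S δ ≠ 0 := by
        rwa [Ne, map_eq_zero_iff _ hinjRS]
      have hmap : algebraMap S K (algebraMap R S δ) = algebraMap F K (algebraMap R F δ) := by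
        rw [← IsScalarTower.algebraMap_apply R S K]
        rfl
      have hδS : ∀ s : S, ∃ s' : S, algebraMap S K s' =
          algebraMap S K (algebraMap R S δ) * D (algebraMap S K s) := by
        intro s
        have h1 : Integ R F (algebraMap F K (algebraMap R F δ) * D (algebraMap S K s)) :=
          hδ _ s.2
        rw [hmap]
        exact ⟨⟨_, h1⟩, rfl⟩
      have h2 := ordP_D D (algebraMap R S δ) hδS0 hδS P x hx hD
      rw [hmap] at h2
      exact h2 }⟩

end Pool.Agent.Y153.SB
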